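import Mathlib
import Pool.Agent.H31.Comm.Final

/-!
A direct product of two groups is supramenable if and only if both factors are and at least one of
them has locally subexponential growth.
(The proof is in `Pool/Agent/H31/Comm/` and `Pool/Agent/H31/Supra/`.)
-/

open scoped Pointwise ENNReal

universe u v

namespace Pool.Agent.Results.MP_56153a_al.ProductCriterion

/-- A group is supramenable if for every nonempty subset `A` there is a finitely additive
left-invariant measure on all subsets, with values in `[0, ∞]`, giving `A` the value `1`. -/
def Supramenable (G : Type*) [Group G] : Prop :=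
  ∀ A : Set G, A.Nonempty → ∃ μ : Set G → ℝ≥0∞,
    μ ∅ = 0 ∧ (∀ B C : Set G, Disjoint B C → μ (B ∪ C) = μ B + μ C) ∧
    (∀ (g : G) (B : Set G), μ (g • B) = μ B) ∧ μ A = 1

/-- A group has locally subexponential growth if for every finite subset `S` and every `c > 1`
the number of elements of `Sⁿ` is at most a constant times `cⁿ`. -/
def LocallySubexponentialGrowth (H : Type*) [Group H] : Prop :=
  ∀ S : Set H, S.Finite → ∀ c : ℝ, 1 < c → ∃ C : ℝ, ∀ n : ℕ, ((S ^ n).ncard : ℝ) ≤ C * c ^ n

theorem result : ∀ (G : Type u) (H : Type v) [Group G] [Group H],
    Supramenable (G × H) ↔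
      Supramenable G ∧ Supramenable H ∧
        (LocallySubexponentialGrowth G ∨ LocallySubexponentialGrowth H) := by
  intro G H _ _
  exact H31.Comm.supra_prod_iff

end Pool.Agent.Results.MP_56153a_al.ProductCriterion
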